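import Pool.Agent.X246.AFSR.CaseI
import Pool.Agent.X246.AFSR.CaseII

/-!
# The average finite `π`-adic complexity is `n / 2 + O(1)`

This answers Q1 of MP_cc6759_lc, in both cases: `E_n^fin = n / 2 + O(1)`, the implied constant
depending only on the ring `R = ℤ[π]`.

Idea of the proof. For `a ∈ R / π^n` let `L_a` be the lattice of all `(f, g) ∈ R²` with
`f ≡ a g` modulo `π^n`, and let `t(a)` be the size of a shortest nonzero vector of `L_a`.
Then `t(a) ≤ λ(a) ≤ n - t(a) + O(1)`: the lower bound is clear; for the upper bound one finds, by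
counting, a second vector of size at most `n - t(a) + O(1)` not on the line of the shortest one, and
corrects `(a, 1)` by combinations of these two vectors. Counting the pairs `(f, g)` of size at most
`t` according to the greatest common divisor of `g` and `π^n` shows that at most `O(N^(2t))` of the
`N^n` sequences have `t(a) ≤ t`. Hence the average of `t(a)` is at least `n / 2 - O(1)`.
-/

set_option autoImplicit false

namespace Pool.Agent.Results.MP_cc6759_lc.AverageFinite

open Pool.Agent.X246.AFSR

/-- **Main theorem.** Case (i): `π² = -N` and `φ(u + vπ) = log_N (u² + N v²)`. Case (ii):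
`π^d = N` and `φ(∑ u_i π^i) = max_i (d log_N |u_i| + i)`. In both cases `R = ℤ[π]` is a unique
factorisation domain with the `ℤ`-basis `1, π, …, π^(d-1)` (`d = 2` in case (i)). Then the least
size `lam` of an AFSR with given first `n` outputs is attained, and its average `Efin n` over all
`N ^ n` sequences of length `n` is `n / 2 + O(1)`. -/
theorem result :
    (∀ (N : ℕ), 2 ≤ N → ∀ (R : Type) [CommRing R] [IsDomain R] [UniqueFactorizationMonoid R]
      (π : R) (b : Module.Basis (Fin 2) ℤ R), b 0 = 1 → b 1 = π → π ^ 2 = -(N : R) →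
        (∀ (n : ℕ) (a : Fin n → Fin N),
          IsLeast (sizes N π (phiI N b) a) (lam N π (phiI N b) a)) ∧
        ∃ C : ℝ, ∀ n : ℕ, |Efin N π (phiI N b) n - (n : ℝ) / 2| ≤ C) ∧
    (∀ (N d : ℕ), 2 ≤ N → 1 ≤ d → ∀ (R : Type) [CommRing R] [IsDomain R]
      [UniqueFactorizationMonoid R] (π : R) (b : Module.Basis (Fin d) ℤ R),
        (∀ i, b i = π ^ (i : ℕ)) → π ^ d = (N : R) →
        (∀ (n : ℕ) (a : Fin n → Fin N),
          IsLeast (sizes N π (phiII N d b) a) (lam N π (phiII N d b) a)) ∧
        ∃ C : ℝ, ∀ n : ℕ, |Efin N π (phiII N d b) n - (n : ℝ) / 2| ≤ C) := by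
  constructor
  · intro N hN R _ _ _ π b h0 h1 hπ
    have h := phiI_eq N b hN h0 π h1 hπ
    rw [← h]
    exact ⟨fun n a => (settingI N b hN h0 π h1 hπ).isLeast_lam a,
      (settingI N b hN h0 π h1 hπ).average⟩
  · intro N d hN hd R _ _ _ π b hb hπ
    obtain ⟨e, rfl⟩ : ∃ e, d = e + 1 := ⟨d - 1, by omega⟩
    have h := phiII_eq N e b hN π hb hπ
    rw [← h]
    exact ⟨fun n a => (settingII N e b hN π hb hπ).isLeast_lam a,
      (settingII N e b hN π hb hπ).average⟩

end Pool.Agent.Results.MP_cc6759_lc.AverageFinite
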